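import Pool.Agent.H298Y.Tail2

/-!
# Algebraic relations of exponential height between `m + 1` zeta values

Let `s_0 < s_1 < … < s_m` be integers such that every ratio `s_{i+1} / s_i` is at most
`φ(⌊s_{k+1} / s_k⌋)` for all `k > i` (for instance all but the largest of the `s_i` lie in an interval
`[n, R n]`). Then every nonzero polynomial `P` of degree at most `D` with integer coefficients of
absolute value at most `A ^ (s_0)` satisfies `|P(ζ(s_0), …, ζ(s_m))| ≥ exp(-C s_m)` as soon as
`s_0 ≥ n₀`, where `C` and `n₀` depend only on `m`, `D`, `φ` and `A`.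
-/

set_option autoImplicit false

namespace Pool.Agent.Results.MP_e54452_nt.TuplesWithTameRatios

theorem result (m D : ℕ) (φ : ℕ → ℕ) (A : ℝ) : ∃ C : ℝ, 0 < C ∧ ∃ n₀ : ℕ,
    ∀ s : Fin (m + 1) → ℕ, StrictMono s → n₀ ≤ s 0 →
    (∀ i k : Fin m, i < k → s i.succ ≤ φ (s k.succ / s k.castSucc) * s i.castSucc) →
    ∀ P : MvPolynomial (Fin (m + 1)) ℤ, P ≠ 0 → P.totalDegree ≤ D →
    (∀ α, |((P.coeff α : ℤ) : ℝ)| ≤ A ^ (s 0)) →
    Real.exp (-(C * s (Fin.last m))) ≤
      |MvPolynomial.aeval (fun i => ∑' j : ℕ, 1 / ((j : ℝ) + 1) ^ (s i)) P| := by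
  have hA1 : 1 ≤ max |A| 1 := le_max_right _ _
  have hA0 : 0 < max |A| 1 := by linarith
  obtain ⟨C, hC, n0, h⟩ := Pool.Agent.H298Y.tail_any (m + 1) D φ (Real.log (max |A| 1))
    (Real.log_nonneg hA1)
  refine ⟨C, hC, n0, ?_⟩
  intro s hs hs0 hφ P hP0 hPD hPH
  have hexp : Real.exp (Real.log (max |A| 1) * (s 0 : ℕ)) = (max |A| 1) ^ (s 0) := by
    rw [mul_comm, Real.exp_nat_mul, Real.exp_log hA0]
  have hAs : A ^ (s 0) ≤ Real.exp (Real.log (max |A| 1) * (s 0 : ℕ)) := by
    rw [hexp]
    refine (le_abs_self _).trans ?_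
    rw [abs_pow]
    exact pow_le_pow_left₀ (abs_nonneg _) (le_max_left _ _) _
  -- reversal of the order
  have hren0 : MvPolynomial.rename Fin.rev P ≠ 0 := by
    intro h0
    exact hP0 (MvPolynomial.rename_injective _ Fin.rev_injective (by rw [h0, map_zero]))
  have hrenD : (MvPolynomial.rename Fin.rev P).totalDegree ≤ D :=
    (MvPolynomial.totalDegree_rename_le _ _).trans hPD
  have hrenH : ∀ α, |(((MvPolynomial.rename Fin.rev P).coeff α : ℤ) : ℝ)| ≤
      Real.exp (Real.log (max |A| 1) * (s 0 : ℕ)) := by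
    intro α
    by_cases h0 : (MvPolynomial.rename Fin.rev P).coeff α = 0
    · rw [h0, Int.cast_zero, abs_zero]
      exact (Real.exp_pos _).le
    · obtain ⟨u, hu, _⟩ := MvPolynomial.coeff_rename_ne_zero _ _ _ h0
      rw [← hu, MvPolynomial.coeff_rename_mapDomain _ Fin.rev_injective]
      exact (hPH u).trans hAs
  have h1 := h (s 0) (s (Fin.last m)) hs0 (hs.monotone (Fin.zero_le _)) (fun i => s i.rev)
    (fun i j hij => hs (Fin.rev_lt_rev.2 hij)) (fun i => hs.monotone (Fin.zero_le _))
    (fun i => hs.monotone (Fin.le_last _)) (by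
      intro i j k l hij hjk hkl
      have hi := i.2
      have hj := j.2
      have hk := k.2
      have hl := l.2
      have hjk' : (j : ℕ) ≤ k := hjk
      have h2 := hφ ⟨m - l, by omega⟩ ⟨m - j, by omega⟩ (by rw [Fin.lt_def]; simp only; omega)
      have e1 : (⟨m - l, by omega⟩ : Fin m).succ = k.rev := by
        ext
        simp only [Fin.val_succ, Fin.val_rev]
        omega
      have e2 : (⟨m - j, by omega⟩ : Fin m).succ = i.rev := by
        ext
        simp only [Fin.val_succ, Fin.val_rev]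
        omega
      have e3 : (⟨m - l, by omega⟩ : Fin m).castSucc = l.rev := by
        ext
        simp only [Fin.val_castSucc, Fin.val_rev]
        omega
      have e4 : (⟨m - j, by omega⟩ : Fin m).castSucc = j.rev := by
        ext
        simp only [Fin.val_castSucc, Fin.val_rev]
        omega
      rw [e1, e2, e3, e4] at h2
      exact h2) _ hren0 hrenD hrenH
  rw [MvPolynomial.aeval_rename] at h1
  have h3 : (fun i => Pool.Agent.H298Y.zt (s (Fin.rev i))) ∘ Fin.rev =
      fun i => ∑' j : ℕ, 1 / ((j : ℝ) + 1) ^ (s i) := by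
    funext i
    simp only [Function.comp_apply, Fin.rev_rev]
    rfl
  rw [h3] at h1
  exact h1.le

end Pool.Agent.Results.MP_e54452_nt.TuplesWithTameRatios
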